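import Mathlib

/-!
# PG, block E: the pigeonhole

`D k` convex on a cube, decreasing in `k`, between `0` and `C`.  On a grid of `N ≈ C' k0` points in
every direction there are `k` with `k0 < k ≤ 2 * k0` and a point `η` such that
`D k + 2 ^ (-A k)` changes by at most a factor `e` and `D (k - 1) + 2 ^ (-A (k - 1))` is at most a
constant times `D k η + 2 ^ (-A k)` at all neighbours of `η`.
-/

set_option autoImplicit false

namespace Pool.Agent.Helper54.PG

open Finset

/-! ## sequences -/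

theorem up_chain (a : ℕ → ℝ) (N : ℕ) (L : ℝ)
    (hq : ∀ i j l, i ≤ j → j ≤ l → l ≤ N + 1 → a j ≤ max (a i) (a l))
    (hL : ∀ j ≤ N + 1, L ≤ a j) (S : Finset ℕ) :
    (∀ j ∈ S, a j + 1 < a (j + 1)) → ∀ x ≤ N + 1, (∀ j ∈ S, j < x) → L + S.card ≤ a x := by
  induction S using Finset.induction_on_max with
  | empty =>
    intro _ x hx _
    simpa using hL x hx
  | insert M S hM ih =>
    intro hS x hx hlt
    have hMx : M < x := hlt M (mem_insert_self _ _)
    have h1 := ih (fun j hj => hS j (mem_insert_of_mem hj)) M (by omega) hM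
    have h2 := hS M (mem_insert_self _ _)
    have h3 : a (M + 1) ≤ a x := by
      rcases le_max_iff.1 (hq M (M + 1) x (by omega) (by omega) hx) with h | h
      · linarith
      · exact h
    have h4 : M ∉ S := fun h => absurd (hM M h) (lt_irrefl _)
    rw [card_insert_of_notMem h4]
    push_cast
    linarith

theorem down_chain (a : ℕ → ℝ) (N : ℕ) (L : ℝ)
    (hq : ∀ i j l, i ≤ j → j ≤ l → l ≤ N + 1 → a j ≤ max (a i) (a l))
    (hL : ∀ j ≤ N + 1, L ≤ a j) (S : Finset ℕ) :
    (∀ j ∈ S, 1 ≤ j ∧ j ≤ N + 1 ∧ a j + 1 < a (j - 1)) → ∀ x ≤ N + 1, (∀ j ∈ S, x < j) →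
      L + S.card ≤ a x := by
  induction S using Finset.induction_on_min with
  | empty =>
    intro _ x hx _
    simpa using hL x hx
  | insert M S hM ih =>
    intro hS x hx hlt
    have hMx : x < M := hlt M (mem_insert_self _ _)
    obtain ⟨hM1, hM2, h2⟩ := hS M (mem_insert_self _ _)
    have h1 := ih (fun j hj => hS j (mem_insert_of_mem hj)) M hM2 hM
    have h3 : a (M - 1) ≤ a x := by
      rcases le_max_iff.1 (hq x (M - 1) M (by omega) (by omega) hM2) with h | h
      · exact h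
      · linarith
    have h4 : M ∉ S := fun h => absurd (hM M h) (lt_irrefl _)
    rw [card_insert_of_notMem h4]
    push_cast
    linarith

open Classical in
/-- a quasi-convex sequence with small range has few large increments -/
theorem bad_card (a : ℕ → ℝ) (N : ℕ) (L U : ℝ)
    (hq : ∀ i j l, i ≤ j → j ≤ l → l ≤ N + 1 → a j ≤ max (a i) (a l))
    (hL : ∀ j ≤ N + 1, L ≤ a j) (hU : ∀ j ≤ N + 1, a j ≤ U) :
    (((Icc 1 N).filter (fun j => a j + 1 < a (j + 1) ∨ a j + 1 < a (j - 1))).card : ℝ) ≤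
      2 * (U - L) := by
  have h1 := up_chain a N L hq hL ((Icc 1 N).filter (fun j => a j + 1 < a (j + 1)))
    (fun j hj => (mem_filter.1 hj).2) (N + 1) le_rfl (fun j hj => by
      have := (mem_Icc.1 (mem_filter.1 hj).1).2
      omega)
  have h2 := down_chain a N L hq hL ((Icc 1 N).filter (fun j => a j + 1 < a (j - 1)))
    (fun j hj => by
      have h := mem_Icc.1 (mem_filter.1 hj).1
      exact ⟨h.1, by omega, (mem_filter.1 hj).2⟩) 0 (by omega) (fun j hj => by
      have := (mem_Icc.1 (mem_filter.1 hj).1).1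
      omega)
  have h3 := hU (N + 1) le_rfl
  have h4 := hU 0 (by omega)
  have h5 : (((Icc 1 N).filter (fun j => a j + 1 < a (j + 1) ∨ a j + 1 < a (j - 1))).card : ℝ) ≤
      (((Icc 1 N).filter (fun j => a j + 1 < a (j + 1))).card : ℝ) +
        (((Icc 1 N).filter (fun j => a j + 1 < a (j - 1))).card : ℝ) := by
    rw [filter_or]
    exact_mod_cast card_union_le _ _
  linarith

/-! ## the grid -/

variable {ι : Type*} [Fintype ι] [DecidableEq ι]

/-- the grid -/
def grid (ι : Type*) [Fintype ι] [DecidableEq ι] (N : ℕ) : Finset (ι → ℕ) :=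
  Fintype.piFinset (fun _ => Icc 1 N)

theorem mem_grid {N : ℕ} {j : ι → ℕ} : j ∈ grid ι N ↔ ∀ i, 1 ≤ j i ∧ j i ≤ N := by
  unfold grid
  rw [Fintype.mem_piFinset]
  exact forall_congr' (fun i => mem_Icc)

theorem update_mem_grid {N : ℕ} {j : ι → ℕ} (hj : j ∈ grid ι N) {i : ι} {t : ℕ}
    (ht : t ∈ Icc 1 N) : Function.update j i t ∈ grid ι N := by
  rw [mem_grid] at hj ⊢
  intro i'
  by_cases h : i' = i
  · subst h
    rw [Function.update_self]
    exact mem_Icc.1 ht
  · rw [Function.update_of_ne h]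
    exact hj i'

/-- lines have few bad points, so the grid has few bad points -/
theorem grid_bad (N : ℕ) (i : ι) (B : (ι → ℕ) → Prop) [DecidablePred B] (M : ℝ)
    (h : ∀ j ∈ grid ι N, (((Icc 1 N).filter (fun t => B (Function.update j i t))).card : ℝ) ≤ M) :
    (N : ℝ) * (((grid ι N).filter B).card : ℝ) ≤ ((grid ι N).card : ℝ) * M := by
  have h1 : (((grid ι N) ×ˢ (Icc 1 N)).filter (fun q => B q.1)).card =
      (((grid ι N) ×ˢ (Icc 1 N)).filter (fun q => B (Function.update q.1 i q.2))).card := by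
    refine card_nbij' (fun q => (Function.update q.1 i q.2, q.1 i))
      (fun q => (Function.update q.1 i q.2, q.1 i)) ?_ ?_ ?_ ?_
    · rintro ⟨j, t⟩ hq
      rw [mem_coe, mem_filter, mem_product] at hq
      rw [mem_coe, mem_filter, mem_product]
      refine ⟨⟨update_mem_grid hq.1.1 hq.1.2, mem_Icc.2 (mem_grid.1 hq.1.1 i)⟩, ?_⟩
      simpa using hq.2
    · rintro ⟨j, t⟩ hq
      rw [mem_coe, mem_filter, mem_product] at hq
      rw [mem_coe, mem_filter, mem_product]
      exact ⟨⟨update_mem_grid hq.1.1 hq.1.2, mem_Icc.2 (mem_grid.1 hq.1.1 i)⟩, hq.2⟩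
    · rintro ⟨j, t⟩ _
      simp
    · rintro ⟨j, t⟩ _
      simp
  have h2 : (((grid ι N) ×ˢ (Icc 1 N)).filter (fun q => B q.1)).card =
      ((grid ι N).filter B).card * N := by
    have h3 : ((grid ι N) ×ˢ (Icc 1 N)).filter (fun q => B q.1) =
        ((grid ι N).filter B) ×ˢ (Icc 1 N) := by
      ext q
      simp only [mem_filter, mem_product]
      tauto
    rw [h3, card_product, Nat.card_Icc, Nat.add_sub_cancel]
  have h4 : ((((grid ι N) ×ˢ (Icc 1 N)).filter
      (fun q => B (Function.update q.1 i q.2))).card : ℝ) ≤ ((grid ι N).card : ℝ) * M := by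
    have h5 : ((grid ι N) ×ˢ (Icc 1 N)).filter (fun q => B (Function.update q.1 i q.2)) =
        (grid ι N).biUnion (fun j =>
          ((Icc 1 N).filter (fun t => B (Function.update j i t))).image (fun t => (j, t))) := by
      ext q
      simp only [mem_filter, mem_product, mem_biUnion, mem_image]
      constructor
      · rintro ⟨⟨h6, h7⟩, h8⟩
        exact ⟨q.1, h6, q.2, ⟨h7, h8⟩, rfl⟩
      · rintro ⟨j, h6, t, ⟨h7, h8⟩, rfl⟩
        exact ⟨⟨h6, h7⟩, h8⟩
    rw [h5]
    calc ((((grid ι N).biUnion (fun j =>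
          ((Icc 1 N).filter (fun t => B (Function.update j i t))).image (fun t => (j, t)))).card : ℕ) : ℝ)
        ≤ ((∑ j ∈ grid ι N, (((Icc 1 N).filter
            (fun t => B (Function.update j i t))).image (fun t => (j, t))).card : ℕ) : ℝ) := by
          exact_mod_cast card_biUnion_le
      _ = ∑ j ∈ grid ι N, ((((Icc 1 N).filter
            (fun t => B (Function.update j i t))).image (fun t => (j, t))).card : ℝ) := by
          push_cast
          rfl
      _ ≤ ∑ _j ∈ grid ι N, M := by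
          refine sum_le_sum (fun j hj => le_trans ?_ (h j hj))
          exact_mod_cast card_image_le
      _ = ((grid ι N).card : ℝ) * M := by rw [sum_const, nsmul_eq_mul]
  have h6 : (N : ℝ) * (((grid ι N).filter B).card : ℝ) =
      ((((grid ι N) ×ˢ (Icc 1 N)).filter
        (fun q => B (Function.update q.1 i q.2))).card : ℝ) := by
    rw [← h1, h2]
    push_cast
    ring
  rw [h6]
  exact h4

open Classical in
/-- few large decrements in `k` -/
theorem jump_card (g : ℕ → ℝ) (k0 : ℕ) (L U C' : ℝ)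
    (hmono : ∀ k, g (k + 1) ≤ g k) (hL : L ≤ g (2 * k0)) (hU : g k0 ≤ U) :
    (((Icc (k0 + 1) (2 * k0)).filter (fun k => C' < g (k - 1) - g k)).card : ℝ) * C' ≤ U - L := by
  have h1 : (((Icc (k0 + 1) (2 * k0)).filter (fun k => C' < g (k - 1) - g k)).card : ℝ) * C' ≤
      ∑ k ∈ Icc (k0 + 1) (2 * k0), (g (k - 1) - g k) := by
    rw [← nsmul_eq_mul, ← sum_const]
    refine le_trans (sum_le_sum (f := fun _ => C') (g := fun k => g (k - 1) - g k)
      (fun k hk => (mem_filter.1 hk).2.le)) ?_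
    refine sum_le_sum_of_subset_of_nonneg (filter_subset _ _) (fun k hk _ => ?_)
    have h2 := (mem_Icc.1 hk).1
    have h3 := hmono (k - 1)
    rw [show k - 1 + 1 = k by omega] at h3
    linarith
  have h2 : ∀ n : ℕ, ∑ k ∈ Icc (k0 + 1) (k0 + n), (g (k - 1) - g k) = g k0 - g (k0 + n) := by
    intro n
    induction n with
    | zero => simp
    | succ n ih =>
      rw [← Nat.add_assoc, sum_Icc_succ_top (by omega), ih]
      rw [show k0 + n + 1 - 1 = k0 + n by omega]
      ring
  have h3 := h2 k0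
  rw [← two_mul] at h3
  rw [h3] at h1
  linarith

/-- the point of the cube belonging to a grid point -/
noncomputable def pt (s δ : ℝ) (j : ι → ℕ) : ι → ℝ := fun i => -(s / 2) + δ * ((j i : ℝ) - 1)

open Classical in
/-- **pigeonhole** for functions which are quasi-convex along the coordinate lines -/
theorem pigeon_f (f : ℕ → (ι → ℝ) → ℝ) (k0 N : ℕ) (hk0 : 0 < k0) (s R C' : ℝ) (hs : 0 < s)
    (hC' : 0 < C')
    (hq : ∀ k, ∀ η : ι → ℝ, (∀ i, |η i| ≤ s) → ∀ i, ∀ t1 t2 t3 : ℝ, -s ≤ t1 → t1 ≤ t2 → t2 ≤ t3 →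
      t3 ≤ s → f k (Function.update η i t2) ≤
        max (f k (Function.update η i t1)) (f k (Function.update η i t3)))
    (L U : ℝ) (hUL : U - L ≤ R)
    (hrange : ∀ k, k ≤ 2 * k0 → ∀ η : ι → ℝ, (∀ i, |η i| ≤ s) → L ≤ f k η ∧ f k η ≤ U)
    (hmono : ∀ k, ∀ η : ι → ℝ, (∀ i, |η i| ≤ s) → f (k + 1) η ≤ f k η)
    (hN : 2 ≤ N) (hN1 : 8 * Fintype.card ι * R < N) (hC1 : 2 * R ≤ C' * k0) :
    ∃ k, k0 < k ∧ k ≤ 2 * k0 ∧ ∃ η : ι → ℝ, (∀ i, |η i| ≤ s / 2) ∧ ∀ i, ∀ σ : ℝ, σ = 1 ∨ σ = -1 →
      f k (Function.update η i (η i + σ * (s / N))) ≤ f k η + 1 ∧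
      f (k - 1) (Function.update η i (η i + σ * (s / N))) ≤ f k η + 1 + C' := by
  have hN0 : (0 : ℝ) < N := by
    have : (2 : ℝ) ≤ N := by exact_mod_cast hN
    linarith
  have hk0' : (0 : ℝ) < k0 := by exact_mod_cast hk0
  set δ : ℝ := s / N with hδ
  have hδ0 : 0 < δ := div_pos hs hN0
  have hδN : δ * N = s := by rw [hδ]; field_simp
  have hδ2 : δ ≤ s / 2 := by
    rw [hδ]
    exact div_le_div_of_nonneg_left hs.le (by norm_num) (by exact_mod_cast hN)
  -- values of the coordinates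
  set u : ℕ → ℝ := fun t => -(s / 2) + δ * ((t : ℝ) - 1) with hu
  have hu_mono : ∀ a b : ℕ, a ≤ b → u a ≤ u b := by
    intro a b hab
    simp only [hu]
    have : (a : ℝ) ≤ b := by exact_mod_cast hab
    nlinarith
  have hu0 : -s ≤ u 0 := by
    simp only [hu]
    push_cast
    linarith
  have huN : u (N + 1) ≤ s := by
    simp only [hu]
    push_cast
    nlinarith
  have hucube : ∀ t ≤ N + 1, |u t| ≤ s := by
    intro t ht
    rw [abs_le]
    exact ⟨hu0.trans (hu_mono 0 t (Nat.zero_le _)), (hu_mono t (N + 1) ht).trans huN⟩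
  have hu_in : ∀ t, 1 ≤ t → t ≤ N → |u t| ≤ s / 2 := by
    intro t h1 h2
    rw [abs_le]
    have h1' : (1 : ℝ) ≤ t := by exact_mod_cast h1
    have h2' : (t : ℝ) ≤ N := by exact_mod_cast h2
    simp only [hu]
    constructor
    · nlinarith
    · nlinarith
  have hptg : ∀ j ∈ grid ι N, ∀ i, |pt s δ j i| ≤ s / 2 := fun j hj i =>
    hu_in (j i) (mem_grid.1 hj i).1 (mem_grid.1 hj i).2
  have hpts : ∀ j ∈ grid ι N, ∀ i, |pt s δ j i| ≤ s := fun j hj i =>
    (hptg j hj i).trans (by linarith)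
  have hpt_up : ∀ (j : ι → ℕ) (i : ι) (t : ℕ),
      pt s δ (Function.update j i t) = Function.update (pt s δ j) i (u t) := by
    intro j i t
    funext i'
    by_cases h : i' = i
    · subst h
      simp [pt, hu]
    · simp [pt, Function.update_of_ne h]
  -- the bad events
  set BV : ℕ → ι → (ι → ℕ) → Prop := fun k i j =>
    f k (pt s δ j) + 1 < f k (Function.update (pt s δ j) i (u (j i + 1))) ∨
      f k (pt s δ j) + 1 < f k (Function.update (pt s δ j) i (u (j i - 1))) with hBV
  have hBVcard : ∀ k ≤ 2 * k0, ∀ i, (N : ℝ) * (((grid ι N).filter (BV k i)).card : ℝ) ≤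
      ((grid ι N).card : ℝ) * (2 * R) := by
    intro k hk i
    refine grid_bad N i (BV k i) (2 * R) (fun j hj => ?_)
    have hbase := hpts j hj
    set a : ℕ → ℝ := fun t => f k (Function.update (pt s δ j) i (u t)) with ha
    have hcube : ∀ t ≤ N + 1, ∀ i', |Function.update (pt s δ j) i (u t) i'| ≤ s := by
      intro t ht i'
      by_cases h : i' = i
      · subst h
        rw [Function.update_self]
        exact hucube t ht
      · rw [Function.update_of_ne h]
        exact hbase i'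
    have h1 := bad_card a N L U
      (fun t1 t2 t3 h12 h23 h3 => hq k (pt s δ j) hbase i (u t1) (u t2) (u t3)
        (hu0.trans (hu_mono 0 t1 (Nat.zero_le _))) (hu_mono _ _ h12) (hu_mono _ _ h23)
        ((hu_mono _ _ h3).trans huN))
      (fun t ht => (hrange k hk _ (hcube t ht)).1)
      (fun t ht => (hrange k hk _ (hcube t ht)).2)
    have h2 : (Icc 1 N).filter (fun t => BV k i (Function.update j i t)) ⊆
        (Icc 1 N).filter (fun t => a t + 1 < a (t + 1) ∨ a t + 1 < a (t - 1)) := by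
      intro t ht
      rw [mem_filter] at ht ⊢
      refine ⟨ht.1, ?_⟩
      have h3 := ht.2
      simp only [hBV, hpt_up, Function.update_self, Function.update_idem] at h3
      exact h3
    calc (((Icc 1 N).filter (fun t => BV k i (Function.update j i t))).card : ℝ)
        ≤ (((Icc 1 N).filter (fun t => a t + 1 < a (t + 1) ∨ a t + 1 < a (t - 1))).card : ℝ) := by
          exact_mod_cast card_le_card h2
      _ ≤ 2 * (U - L) := h1
      _ ≤ 2 * R := by linarith
  set BJ : ℕ → (ι → ℕ) → Prop := fun k j =>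
    C' < f (k - 1) (pt s δ j) - f k (pt s δ j) with hBJ
  have hBJcard : ∀ j ∈ grid ι N,
      (((Icc (k0 + 1) (2 * k0)).filter (fun k => BJ k j)).card : ℝ) ≤ (k0 : ℝ) / 2 := by
    intro j hj
    have h1 := jump_card (fun k => f k (pt s δ j)) k0 L U C'
      (fun k => hmono k _ (hpts j hj)) (hrange (2 * k0) le_rfl _ (hpts j hj)).1
      (hrange k0 (by omega) _ (hpts j hj)).2
    have h2 : (((Icc (k0 + 1) (2 * k0)).filter (fun k => BJ k j)).card : ℝ) * C' ≤
        (k0 : ℝ) / 2 * C' := by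
      refine h1.trans ?_
      linarith
    exact le_of_mul_le_mul_right h2 hC'
  by_contra hcon
  push Not at hcon
  -- every pair is bad
  have hG : 0 < (grid ι N).card := by
    rw [card_pos]
    exact ⟨fun _ => 1, mem_grid.2 (fun _ => ⟨le_rfl, by omega⟩)⟩
  have hG' : (0 : ℝ) < (grid ι N).card := by exact_mod_cast hG
  have hall : ∀ k ∈ Icc (k0 + 1) (2 * k0), ∀ j ∈ grid ι N,
      (∃ i, BV k i j) ∨ (∃ i, BV (k - 1) i j) ∨ BJ k j := by
    intro k hk j hj
    rw [mem_Icc] at hk
    by_contra hgood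
    push Not at hgood
    obtain ⟨g1, g2, g3⟩ := hgood
    obtain ⟨i, σ, hσ, h1⟩ := hcon k (by omega) hk.2 (pt s δ j) (hptg j hj)
    have hval : ∃ t, (t = j i + 1 ∨ t = j i - 1) ∧ pt s δ j i + σ * δ = u t := by
      rcases hσ with rfl | rfl
      · refine ⟨j i + 1, Or.inl rfl, ?_⟩
        simp only [pt, hu]
        push_cast
        ring
      · refine ⟨j i - 1, Or.inr rfl, ?_⟩
        have h2 := (mem_grid.1 hj i).1
        simp only [pt, hu]
        rw [Nat.cast_sub h2]
        push_cast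
        ring
    obtain ⟨t, ht, hval⟩ := hval
    rw [hval] at h1
    have g1' := g1 i
    have g2' := g2 i
    simp only [hBV, not_or, not_lt] at g1' g2'
    simp only [hBJ, not_lt] at g3
    have hk1 : f k (Function.update (pt s δ j) i (u t)) ≤ f k (pt s δ j) + 1 := by
      rcases ht with rfl | rfl
      · exact g1'.1
      · exact g1'.2
    have hk2 : f (k - 1) (Function.update (pt s δ j) i (u t)) ≤ f (k - 1) (pt s δ j) + 1 := by
      rcases ht with rfl | rfl
      · exact g2'.1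
      · exact g2'.2
    have := h1 hk1
    linarith
  -- counting
  set K := Icc (k0 + 1) (2 * k0) with hK
  have hKc : K.card = k0 := by
    rw [hK, Nat.card_Icc]
    omega
  have hcover : K ×ˢ grid ι N ⊆
      ((univ : Finset ι) ×ˢ K).biUnion (fun q => ((grid ι N).filter (BV q.2 q.1)).image
        (fun j => (q.2, j))) ∪
      ((univ : Finset ι) ×ˢ K).biUnion (fun q => ((grid ι N).filter (BV (q.2 - 1) q.1)).image
        (fun j => (q.2, j))) ∪
      (grid ι N).biUnion (fun j => (K.filter (fun k => BJ k j)).image (fun k => (k, j))) := by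
    rintro ⟨k, j⟩ hkj
    rw [mem_product] at hkj
    rw [mem_union, mem_union, mem_biUnion, mem_biUnion, mem_biUnion]
    rcases hall k hkj.1 j hkj.2 with ⟨i, h⟩ | ⟨i, h⟩ | h
    · exact Or.inl (Or.inl ⟨(i, k), mem_product.2 ⟨mem_univ _, hkj.1⟩,
        mem_image.2 ⟨j, mem_filter.2 ⟨hkj.2, h⟩, rfl⟩⟩)
    · exact Or.inl (Or.inr ⟨(i, k), mem_product.2 ⟨mem_univ _, hkj.1⟩,
        mem_image.2 ⟨j, mem_filter.2 ⟨hkj.2, h⟩, rfl⟩⟩)
    · exact Or.inr ⟨j, hkj.2, mem_image.2 ⟨k, mem_filter.2 ⟨hkj.1, h⟩, rfl⟩⟩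
  have hV1 : ∀ q ∈ (univ : Finset ι) ×ˢ K,
      ((((grid ι N).filter (BV q.2 q.1)).image (fun j => (q.2, j))).card : ℝ) ≤
        ((grid ι N).card : ℝ) * (2 * R) / N := by
    intro q hq
    rw [mem_product, hK, mem_Icc] at hq
    rw [le_div_iff₀ hN0, mul_comm]
    refine le_trans (mul_le_mul_of_nonneg_left ?_ hN0.le) (hBVcard q.2 (by omega) q.1)
    exact_mod_cast card_image_le
  have hV2 : ∀ q ∈ (univ : Finset ι) ×ˢ K,
      ((((grid ι N).filter (BV (q.2 - 1) q.1)).image (fun j => (q.2, j))).card : ℝ) ≤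
        ((grid ι N).card : ℝ) * (2 * R) / N := by
    intro q hq
    rw [mem_product, hK, mem_Icc] at hq
    rw [le_div_iff₀ hN0, mul_comm]
    refine le_trans (mul_le_mul_of_nonneg_left ?_ hN0.le) (hBVcard (q.2 - 1) (by omega) q.1)
    exact_mod_cast card_image_le
  have hcard : ((K ×ˢ grid ι N).card : ℝ) ≤
      ((Fintype.card ι : ℝ) * k0) * (((grid ι N).card : ℝ) * (2 * R) / N) +
      ((Fintype.card ι : ℝ) * k0) * (((grid ι N).card : ℝ) * (2 * R) / N) +
      ((grid ι N).card : ℝ) * ((k0 : ℝ) / 2) := by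
    have e1 : (((univ : Finset ι) ×ˢ K).card : ℝ) = (Fintype.card ι : ℝ) * k0 := by
      rw [card_product, hKc, card_univ]
      push_cast
      ring
    have b1 : ((((univ : Finset ι) ×ˢ K).biUnion (fun q =>
        ((grid ι N).filter (BV q.2 q.1)).image (fun j => (q.2, j)))).card : ℝ) ≤
        ((Fintype.card ι : ℝ) * k0) * (((grid ι N).card : ℝ) * (2 * R) / N) := by
      rw [← e1, ← nsmul_eq_mul, ← sum_const]
      refine le_trans ?_ (sum_le_sum hV1)
      exact_mod_cast card_biUnion_le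
    have b2 : ((((univ : Finset ι) ×ˢ K).biUnion (fun q =>
        ((grid ι N).filter (BV (q.2 - 1) q.1)).image (fun j => (q.2, j)))).card : ℝ) ≤
        ((Fintype.card ι : ℝ) * k0) * (((grid ι N).card : ℝ) * (2 * R) / N) := by
      rw [← e1, ← nsmul_eq_mul, ← sum_const]
      refine le_trans ?_ (sum_le_sum hV2)
      exact_mod_cast card_biUnion_le
    have b3 : (((grid ι N).biUnion (fun j =>
        (K.filter (fun k => BJ k j)).image (fun k => (k, j)))).card : ℝ) ≤
        ((grid ι N).card : ℝ) * ((k0 : ℝ) / 2) := by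
      rw [← nsmul_eq_mul, ← sum_const]
      refine le_trans ?_ (sum_le_sum (f := fun j =>
        (((K.filter (fun k => BJ k j)).image (fun k => (k, j))).card : ℝ))
        (fun j hj => le_trans (by exact_mod_cast card_image_le) (hBJcard j hj)))
      exact_mod_cast card_biUnion_le
    calc ((K ×ˢ grid ι N).card : ℝ)
        ≤ (((((univ : Finset ι) ×ˢ K).biUnion (fun q => ((grid ι N).filter (BV q.2 q.1)).image
        (fun j => (q.2, j))) ∪
      ((univ : Finset ι) ×ˢ K).biUnion (fun q => ((grid ι N).filter (BV (q.2 - 1) q.1)).image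
        (fun j => (q.2, j))) ∪
      (grid ι N).biUnion (fun j => (K.filter (fun k => BJ k j)).image (fun k => (k, j)))).card : ℕ)
        : ℝ) := by exact_mod_cast card_le_card hcover
      _ ≤ _ := by
          refine le_trans ?_ (add_le_add (add_le_add b1 b2) b3)
          exact_mod_cast (card_union_le _ _).trans (Nat.add_le_add_right (card_union_le _ _) _)
  have htot : ((K ×ˢ grid ι N).card : ℝ) = k0 * ((grid ι N).card : ℝ) := by
    rw [card_product, hKc]
    push_cast
    ring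
  rw [htot] at hcard
  set G : ℝ := ((grid ι N).card : ℝ) with hGdef
  have h1 : ((Fintype.card ι : ℝ) * k0) * (G * (2 * R) / N) =
      (k0 * G) * ((Fintype.card ι : ℝ) * (2 * R) / N) := by ring
  have h2 : (Fintype.card ι : ℝ) * (2 * R) / N < 1 / 4 := by
    rw [div_lt_div_iff₀ hN0 (by norm_num)]
    linarith
  rw [h1] at hcard
  have h3 : (0 : ℝ) < k0 * G := mul_pos hk0' hG'
  nlinarith

/-! ## the form needed -/

theorem update_mem_segment (η : ι → ℝ) (i : ι) {t1 t2 t3 : ℝ} (h1 : t1 ≤ t2) (h2 : t2 ≤ t3) :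
    Function.update η i t2 ∈ segment ℝ (Function.update η i t1) (Function.update η i t3) := by
  have h : t2 ∈ segment ℝ t1 t3 := by
    rw [segment_eq_Icc (h1.trans h2)]
    exact ⟨h1, h2⟩
  obtain ⟨a, b, ha, hb, hab, h⟩ := h
  refine ⟨a, b, ha, hb, hab, ?_⟩
  funext i'
  by_cases hi : i' = i
  · subst hi
    simpa using h
  · simp only [Pi.add_apply, Pi.smul_apply, Function.update_of_ne hi, smul_eq_mul]
    rw [← add_mul, hab, one_mul]

/-- **Pigeonhole (PG, block E).**  `c`, `C2` do not depend on `k0` and `D`; the step is `c / k0`. -/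
theorem pigeon_D (A : ℕ) (C s : ℝ) (hC : 0 ≤ C) (hs : 0 < s) :
    ∃ c C2 : ℝ, 0 < c ∧ c ≤ s / 2 ∧ 0 < C2 ∧ ∀ k0 : ℕ, 0 < k0 → ∀ D : ℕ → (ι → ℝ) → ℝ,
      (∀ k, ConvexOn ℝ {η : ι → ℝ | ∀ i, |η i| ≤ s} (D k)) →
      (∀ k, ∀ η : ι → ℝ, (∀ i, |η i| ≤ s) → 0 ≤ D k η ∧ D k η ≤ C) →
      (∀ k, ∀ η : ι → ℝ, (∀ i, |η i| ≤ s) → D (k + 1) η ≤ D k η) →
      ∃ k, k0 < k ∧ k ≤ 2 * k0 ∧ ∃ η : ι → ℝ, (∀ i, |η i| ≤ s / 2) ∧
        ∀ i, ∀ σ : ℝ, σ = 1 ∨ σ = -1 →
          D k (Function.update η i (η i + σ * (c / k0))) + (1 / 2 : ℝ) ^ (A * k) ≤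
            Real.exp 1 * (D k η + (1 / 2 : ℝ) ^ (A * k)) ∧
          D (k - 1) (Function.update η i (η i + σ * (c / k0))) + (1 / 2 : ℝ) ^ (A * (k - 1)) ≤
            C2 * (D k η + (1 / 2 : ℝ) ^ (A * k)) := by
  set C1 : ℝ := Real.log (C + 1) + 2 * A * Real.log 2 with hC1
  have hlog2 : 0 < Real.log 2 := Real.log_pos (by norm_num)
  have hlogC : 0 ≤ Real.log (C + 1) := Real.log_nonneg (by linarith)
  have hC1n : 0 ≤ C1 := by positivity
  obtain ⟨N0, hN0⟩ := exists_nat_gt (8 * (Fintype.card ι : ℝ) * C1 + 2)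
  have hN0pos : (0 : ℝ) < N0 := lt_trans (by positivity) hN0
  have hN02 : (2 : ℝ) < N0 := lt_of_le_of_lt (by
    have : 0 ≤ 8 * (Fintype.card ι : ℝ) * C1 := by positivity
    linarith) hN0
  have hN02' : 2 < N0 := by exact_mod_cast hN02
  set C' : ℝ := 2 * C1 + 1 with hC'
  have hC'0 : 0 < C' := by linarith
  refine ⟨s / N0, Real.exp (1 + C'), div_pos hs hN0pos, ?_, Real.exp_pos _, ?_⟩
  · exact div_le_div_of_nonneg_left hs.le (by norm_num) hN02.le
  intro k0 hk0 D hconv hbd hmono
  have hk0' : (1 : ℝ) ≤ k0 := by exact_mod_cast hk0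
  have hpow : ∀ k : ℕ, (0 : ℝ) < (1 / 2 : ℝ) ^ (A * k) := fun k => by positivity
  set f : ℕ → (ι → ℝ) → ℝ := fun k η => Real.log (D k η + (1 / 2 : ℝ) ^ (A * k)) with hf
  have hpos : ∀ k, ∀ η : ι → ℝ, (∀ i, |η i| ≤ s) → 0 < D k η + (1 / 2 : ℝ) ^ (A * k) :=
    fun k η hη => by
      have h1 := (hbd k η hη).1
      have h2 := hpow k
      linarith
  have hcube : ∀ η : ι → ℝ, (∀ i, |η i| ≤ s) → ∀ i, ∀ t : ℝ, |t| ≤ s →
      ∀ i', |Function.update η i t i'| ≤ s := by
    intro η hη i t ht i'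
    by_cases h : i' = i
    · subst h
      rw [Function.update_self]
      exact ht
    · rw [Function.update_of_ne h]
      exact hη i'
  obtain ⟨k, hk1, hk2, η, hη, hkey⟩ := pigeon_f f k0 (N0 * k0) hk0 s (C1 * k0) C' hs hC'0
    (fun k η hη i t1 t2 t3 h0 h12 h23 h3 => by
      have m1 : |t1| ≤ s := abs_le.2 ⟨h0, h12.trans (h23.trans h3)⟩
      have m2 : |t2| ≤ s := abs_le.2 ⟨h0.trans h12, h23.trans h3⟩
      have m3 : |t3| ≤ s := abs_le.2 ⟨h0.trans (h12.trans h23), h3⟩
      have p1 := hpos k _ (hcube η hη i t1 m1)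
      have p2 := hpos k _ (hcube η hη i t2 m2)
      have p3 := hpos k _ (hcube η hη i t3 m3)
      have h4 := (hconv k).le_max_of_mem_segment (hcube η hη i t1 m1) (hcube η hη i t3 m3)
        (update_mem_segment η i h12 h23)
      simp only [hf]
      rcases le_max_iff.1 h4 with h5 | h5
      · exact le_max_of_le_left (Real.log_le_log p2 (by linarith))
      · exact le_max_of_le_right (Real.log_le_log p2 (by linarith)))
    (-(2 * A * k0 * Real.log 2)) (Real.log (C + 1)) (by
      have h1 : Real.log (C + 1) ≤ Real.log (C + 1) * k0 := le_mul_of_one_le_right hlogC hk0'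
      rw [hC1]
      nlinarith)
    (fun k hk η hη => by
      have h1 := hbd k η hη
      have h2 := hpow k
      have h3 : (1 / 2 : ℝ) ^ (A * k) ≤ 1 := pow_le_one₀ (by norm_num) (by norm_num)
      constructor
      · have h4 : Real.log ((1 / 2 : ℝ) ^ (A * k)) ≤ f k η :=
          Real.log_le_log h2 (by linarith [h1.1])
        have h5 : Real.log ((1 / 2 : ℝ) ^ (A * k)) = -((A : ℝ) * k * Real.log 2) := by
          rw [Real.log_pow, one_div, Real.log_inv]
          push_cast
          ring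
        have h6 : (k : ℝ) ≤ 2 * k0 := by exact_mod_cast hk
        have h7 : (A : ℝ) * k * Real.log 2 ≤ 2 * A * k0 * Real.log 2 := by
          apply mul_le_mul_of_nonneg_right _ hlog2.le
          have hA : (0 : ℝ) ≤ A := Nat.cast_nonneg _
          nlinarith
        linarith
      · exact Real.log_le_log (hpos k η hη) (by linarith [h1.2]))
    (fun k η hη => Real.log_le_log (hpos (k + 1) η hη) (by
      have h1 := hmono k η hη
      have h2 : (1 / 2 : ℝ) ^ (A * (k + 1)) ≤ (1 / 2 : ℝ) ^ (A * k) :=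
        pow_le_pow_of_le_one (by norm_num) (by norm_num) (Nat.mul_le_mul_left A (Nat.le_succ k))
      linarith))
    (by nlinarith)
    (by
      push_cast
      have h1 : (8 * (Fintype.card ι : ℝ) * C1) < N0 := by linarith
      calc 8 * (Fintype.card ι : ℝ) * (C1 * k0) = (8 * (Fintype.card ι : ℝ) * C1) * k0 := by ring
        _ < N0 * k0 := mul_lt_mul_of_pos_right h1 (by linarith))
    (by
      rw [hC']
      nlinarith)
  have hk0pos : (0 : ℝ) < k0 := by linarith
  have hstep : s / ((N0 * k0 : ℕ) : ℝ) = s / N0 / k0 := by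
    push_cast
    rw [div_div]
  have hηs : ∀ i, |η i| ≤ s := fun i => (hη i).trans (by linarith)
  have hc2 : s / N0 / k0 ≤ s / 2 := by
    rw [div_div]
    refine div_le_div_of_nonneg_left hs.le (by norm_num) ?_
    nlinarith
  have hc0 : 0 < s / N0 / k0 := by positivity
  refine ⟨k, hk1, hk2, η, hη, fun i σ hσ => ?_⟩
  obtain ⟨h1, h2⟩ := hkey i σ hσ
  rw [hstep] at h1 h2
  have hσa : |η i + σ * (s / N0 / k0)| ≤ s := by
    have h3 := abs_le.1 (hη i)
    rw [abs_le]
    rcases hσ with rfl | rfl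
    · constructor <;> linarith [h3.1, h3.2]
    · constructor <;> linarith [h3.1, h3.2]
  have hcu := hcube η hηs i _ hσa
  have p0 := hpos k η hηs
  have p1 := hpos k _ hcu
  have p2 := hpos (k - 1) _ hcu
  simp only [hf] at h1 h2
  constructor
  · have h3 := Real.exp_le_exp.2 h1
    rw [Real.exp_log p1, Real.exp_add, Real.exp_log p0] at h3
    exact h3.trans (le_of_eq (mul_comm _ _))
  · have h3 := Real.exp_le_exp.2 h2
    rw [Real.exp_log p2, add_assoc, Real.exp_add, Real.exp_log p0] at h3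
    exact h3.trans (le_of_eq (mul_comm _ _))

end Pool.Agent.Helper54.PG
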